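import Pool.Agent.H26.ZQ.Defs

/-! # SEP: the imaginary part of `zz c δ u` as a function of `u` -/

set_option autoImplicit false

open MeasureTheory Set Filter Topology Metric

namespace Pool.Agent.H66.ZQ

open Pool.Agent.H26.ZQ Pool.Agent.H26.ML

lemma sep_small {c σ d u : ℝ} (hσ : 0 < σ) (hc : σ < c) (hd : 0 < d) (hd1 : d ≤ 1)
    (hd2 : 16 * σ * d ≤ c - σ) (h : zx c d u ≤ σ) : 16 * (d ^ 2 * u ^ 2) ≤ c ^ 2 := by
  have hc0 : 0 < c := hσ.trans hc
  have hA : 0 < c ^ 2 + d ^ 2 * u ^ 2 := by positivity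
  unfold zx at h
  rw [div_le_iff₀ hA] at h
  have h1 : d * u ^ 2 * (c - σ * d) ≤ σ * c ^ 2 := by
    have : 0 ≤ c ^ 3 * d := by positivity
    nlinarith
  have h2 : d * u ^ 2 * (c - σ) ≤ d * u ^ 2 * (c - σ * d) := by
    apply mul_le_mul_of_nonneg_left _ (by positivity)
    nlinarith
  have h3 : d * (d * u ^ 2 * (c - σ)) ≤ d * (σ * c ^ 2) :=
    mul_le_mul_of_nonneg_left (h2.trans h1) hd.le
  have h4 : c ^ 2 * (16 * σ * d) ≤ c ^ 2 * (c - σ) :=
    mul_le_mul_of_nonneg_left hd2 (by positivity)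
  have h5 : (16 * (d ^ 2 * u ^ 2)) * (c - σ) ≤ c ^ 2 * (c - σ) := by nlinarith
  exact le_of_mul_le_mul_right h5 (by linarith)

theorem pf_sep : T_SEP := by
  intro c σ hσ hc
  have hc0 : 0 < c := hσ.trans hc
  refine ⟨min (1 / 2) ((c - σ) / (16 * σ)), lt_min (by norm_num)
    (div_pos (by linarith) (by positivity)), min_le_left _ _, ?_⟩
  intro d u v hd hd0 hu hv
  have hd1 : d ≤ 1 / 2 := hd0.trans (min_le_left _ _)
  have hd2 : 16 * σ * d ≤ c - σ := by
    have := hd0.trans (min_le_right _ _)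
    rw [le_div_iff₀ (by positivity)] at this
    linarith
  have h1 := sep_small hσ hc hd (by linarith) hd2 hu
  have h2 := sep_small hσ hc hd (by linarith) hd2 hv
  have hA : 0 < c ^ 2 + d ^ 2 * u ^ 2 := by positivity
  have hB : 0 < c ^ 2 + d ^ 2 * v ^ 2 := by positivity
  have hc2 : 0 < c ^ 2 := by positivity
  have hd3 : d ^ 2 ≤ 1 / 4 := by nlinarith
  have huv : |d ^ 2 * (u * v)| ≤ c ^ 2 / 16 := by
    rw [abs_le]
    constructor
    · nlinarith [sq_nonneg (d * u + d * v)]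
    · nlinarith [sq_nonneg (d * u - d * v)]
  have huv1 := (abs_le.1 huv).1
  have huv2 := (abs_le.1 huv).2
  set k : ℝ := c ^ 2 * (1 - d ^ 2) * (c ^ 2 - d ^ 2 * (u * v)) /
    ((c ^ 2 + d ^ 2 * u ^ 2) * (c ^ 2 + d ^ 2 * v ^ 2)) with hk
  have hz : zy c d u - zy c d v = (u - v) * k := by
    rw [hk]
    unfold zy
    field_simp
    ring
  have hn : 0 ≤ c ^ 2 - d ^ 2 * (u * v) := by linarith
  have hk1 : 1 / 2 ≤ k := by
    rw [hk, le_div_iff₀ (by positivity)]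
    have hAB : (c ^ 2 + d ^ 2 * u ^ 2) * (c ^ 2 + d ^ 2 * v ^ 2) ≤
        (17 / 16 * c ^ 2) * (17 / 16 * c ^ 2) :=
      mul_le_mul (by linarith) (by linarith) hB.le (by positivity)
    have h3 : c ^ 2 * (3 / 4) * (15 / 16 * c ^ 2) ≤
        c ^ 2 * (1 - d ^ 2) * (c ^ 2 - d ^ 2 * (u * v)) :=
      mul_le_mul (mul_le_mul_of_nonneg_left (by linarith) hc2.le) (by linarith) (by positivity)
        (mul_nonneg hc2.le (by linarith))
    nlinarith
  have hk2 : k ≤ 1 := by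
    rw [hk, div_le_one (by positivity)]
    have h3 : c ^ 2 * (1 - d ^ 2) * (c ^ 2 - d ^ 2 * (u * v)) ≤
        c ^ 2 * 1 * (c ^ 2 - d ^ 2 * (u * v)) :=
      mul_le_mul_of_nonneg_right (mul_le_mul_of_nonneg_left (by nlinarith) hc2.le) hn
    have h4 : 0 ≤ d ^ 2 * (d ^ 2 * (u * v) ^ 2) := by positivity
    nlinarith [mul_nonneg (mul_nonneg hc2.le (sq_nonneg d)) (sq_nonneg (u + v)),
      mul_nonneg (mul_nonneg hc2.le (sq_nonneg d)) (sq_nonneg u),
      mul_nonneg (mul_nonneg hc2.le (sq_nonneg d)) (sq_nonneg v)]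
  have hk0 : 0 ≤ k := by linarith
  rw [hz, abs_mul, abs_of_nonneg hk0]
  constructor
  · nlinarith [abs_nonneg (u - v)]
  · nlinarith [abs_nonneg (u - v)]

end Pool.Agent.H66.ZQ
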