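import Pool.Agent.H26.ZQ.Defs

/-! # ZC: the image of the circle of radius `r` -/

set_option autoImplicit false

open MeasureTheory Set Filter Topology Metric

namespace Pool.Agent.H66.ZQ

open Pool.Agent.H26.ZQ Pool.Agent.H26.ML

lemma circ_ang (c u : ℝ) (hc : 0 < c) : circleMap 0 1 (ang c u) =
    ((c : ℂ) - u * Complex.I) / ((c : ℂ) + u * Complex.I) := by
  have hc0 : (c : ℂ) ≠ 0 := by exact_mod_cast hc.ne'
  have hx : (1 : ℂ) + (u / c : ℝ) * Complex.I ≠ 0 := by
    intro h0
    have := congrArg Complex.re h0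
    simp at this
  have hy : (1 : ℂ) - (u / c : ℝ) * Complex.I ≠ 0 := by
    intro h0
    have := congrArg Complex.re h0
    simp at this
  have h0 : ((c : ℂ) - u * Complex.I) / ((c : ℂ) + u * Complex.I) =
      ((1 : ℂ) - (u / c : ℝ) * Complex.I) / ((1 : ℂ) + (u / c : ℝ) * Complex.I) := by
    have e1 : (c : ℂ) - u * Complex.I = c * ((1 : ℂ) - (u / c : ℝ) * Complex.I) := by
      push_cast; field_simp
    have e2 : (c : ℂ) + u * Complex.I = c * ((1 : ℂ) + (u / c : ℝ) * Complex.I) := by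
      push_cast; field_simp
    rw [e1, e2, mul_div_mul_left _ _ hc0]
  rw [h0]
  unfold ang
  set x : ℝ := u / c with hxd
  have hs : 0 < Real.sqrt (1 + x ^ 2) := Real.sqrt_pos.mpr (by positivity)
  have e1 : Complex.exp (Real.arctan x * Complex.I) =
      ((1 : ℂ) + x * Complex.I) / (Real.sqrt (1 + x ^ 2) : ℂ) := by
    rw [Complex.exp_mul_I, ← Complex.ofReal_cos, ← Complex.ofReal_sin, Real.cos_arctan,
      Real.sin_arctan]
    push_cast
    have : ((Real.sqrt (1 + x ^ 2) : ℝ) : ℂ) ≠ 0 := by exact_mod_cast hs.ne'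
    field_simp
  have e2 : circleMap 0 1 (-(2 * Real.arctan x)) =
      ((Complex.exp (Real.arctan x * Complex.I)) ^ 2)⁻¹ := by
    unfold circleMap
    rw [← Complex.exp_nat_mul, ← Complex.exp_neg]
    simp only [Complex.ofReal_one, one_mul, zero_add]
    congr 1
    push_cast
    ring
  rw [e2, e1]
  have e3 : ((Real.sqrt (1 + x ^ 2) : ℝ) : ℂ) ^ 2 =
      ((1 : ℂ) + x * Complex.I) * ((1 : ℂ) - x * Complex.I) := by
    rw [← Complex.ofReal_pow, Real.sq_sqrt (by positivity)]
    push_cast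
    linear_combination ((x : ℂ) ^ 2) * Complex.I_sq
  rw [div_pow, inv_div, e3]
  field_simp

lemma zz_mul (c d u : ℝ) (hc : 0 < c) :
    zz c d u * ((c : ℂ) + (d * u : ℝ) * Complex.I) = c * ((c * d : ℝ) + u * Complex.I) := by
  have h : c ^ 2 + d ^ 2 * u ^ 2 ≠ 0 := by positivity
  have h1 : zx c d u * c - zy c d u * (d * u) = c * (c * d) := by
    unfold zx zy
    field_simp
    ring
  have h2 : zx c d u * (d * u) + zy c d u * c = c * u := by
    unfold zx zy
    field_simp
    ring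
  unfold zz
  generalize zx c d u = X at *
  generalize zy c d u = Y at *
  have h1' : (X : ℂ) * c - Y * (d * u) = c * (c * d) := by exact_mod_cast h1
  have h2' : (X : ℂ) * (d * u) + Y * c = c * u := by exact_mod_cast h2
  push_cast
  linear_combination h1' + h2' * Complex.I + (Y : ℂ) * (d * u) * Complex.I_sq

lemma den_ne (c t : ℝ) (hc : 0 < c) : (c : ℂ) + (t : ℝ) * Complex.I ≠ 0 := by
  intro h0
  have := congrArg Complex.re h0
  simp at this
  exact hc.ne' this

theorem pf_zc : T_ZC := by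
  intro c r u hc hr hr1
  have hr2 : 0 < 1 + r := by linarith
  have hw : circleMap 0 r (ang c u) = r * circleMap 0 1 (ang c u) := by
    simp [circleMap]
  rw [hw, circ_ang c u hc]
  unfold cay
  have hA : (c : ℂ) + u * Complex.I ≠ 0 := den_ne c u hc
  have hD : ((c : ℂ) + (((1 - r) / (1 + r)) * u : ℝ) * Complex.I) ≠ 0 := den_ne c _ hc
  have hR : ((1 : ℂ) + r) ≠ 0 := by exact_mod_cast hr2.ne'
  have h1 := zz_mul c ((1 - r) / (1 + r)) u hc
  rw [← eq_div_iff hD] at h1
  rw [h1]
  have e1 : (1 : ℂ) - r * (((c : ℂ) - u * Complex.I) / ((c : ℂ) + u * Complex.I)) =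
      ((1 + r) * ((c * ((1 - r) / (1 + r)) : ℝ) + u * Complex.I)) /
        ((c : ℂ) + u * Complex.I) := by
    push_cast
    field_simp
    ring
  have e2 : (1 : ℂ) + r * (((c : ℂ) - u * Complex.I) / ((c : ℂ) + u * Complex.I)) =
      ((1 + r) * ((c : ℂ) + (((1 - r) / (1 + r)) * u : ℝ) * Complex.I)) /
        ((c : ℂ) + u * Complex.I) := by
    push_cast
    field_simp
    ring
  rw [e1, e2, div_div_div_cancel_right₀ hA, mul_div_mul_left _ _ hR, mul_div_assoc]

end Pool.Agent.H66.ZQ
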